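import Pool.Agent.Lib.MP_ffba67_an.Main

/-!
# A maximal Banach operator ideal without its local reflexivity principle

Over the real and over the complex field there is a maximal Banach operator ideal `𝔄` which does
not satisfy the `𝔄`-LRP. This answers the question in the negative.
-/

namespace Pool.Agent.Results.MP_ffba67_an.NoLocalReflexivity

open Pool.Agent.Lib.MP_ffba67_an

/-- Over `𝕜 = ℝ` and over `𝕜 = ℂ` there is a maximal Banach operator ideal `A` which does not
satisfy the `A`-local reflexivity principle. -/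
theorem result (𝕜 : Type) [RCLike 𝕜] :
    ∃ A : OpFamily 𝕜, A.IsBanachIdeal ∧ A.IsMaximal ∧ ¬ A.LRP := by
  obtain ⟨A, hA, hM, E, Y, i1, F, i2, T, hT⟩ := exists_ideal 𝕜
  refine ⟨A, hA, hM, fun h => ?_⟩
  obtain ⟨S, h1, h2, -⟩ := h E Y i1 F i2 (1 / 50) (by norm_num) T
  exact absurd h1 (not_le.2 (hT S h2))

end Pool.Agent.Results.MP_ffba67_an.NoLocalReflexivity
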